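import Mathlib

open MeasureTheory Set Complex

namespace Pool.Agent.Results.MP_9d6809_an.NoRiesz

/-- The Gabor atom with window the indicator of the set, shift l and frequency g. -/
noncomputable def atom (Ω : Set ℝ) (l g : ℝ) (x : ℝ) : ℂ :=
  exp (2 * Real.pi * I * (g * x)) * Ω.indicator 1 (x - l)

/-- A Riesz basis: the image of an orthonormal basis under a bounded invertible operator. -/
def IsRieszBasis {H : Type} [NormedAddCommGroup H] [InnerProductSpace ℂ H] (G : Set H) : Prop :=
  ∃ (ι : Type) (b : HilbertBasis ι ℂ H) (T : H ≃L[ℂ] H), range (fun i => T (b i)) = G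

/-- For every level k at least 2 some set multi-tiles the line by the integers at level k and
no set of frequencies makes its Gabor system a Riesz basis. -/
theorem result (k : ℕ) (hk : 2 ≤ k) : ∃ Ω : Set ℝ, MeasurableSet Ω ∧ 0 < volume Ω ∧
    volume Ω < ⊤ ∧ (∀ x : ℝ, {l : ℤ | x - l ∈ Ω}.encard = k) ∧ ∀ Γ : Set ℝ,
      ¬ IsRieszBasis {f : Lp ℂ 2 (volume : Measure ℝ) |
        ∃ l : ℤ, ∃ g ∈ Γ, f =ᵐ[volume] atom Ω l g} := by
  have k0 : (0 : ℝ) < k := by exact_mod_cast (by omega : 0 < k)
  have k2 : (2 : ℝ) ≤ k := by exact_mod_cast hk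
  refine ⟨Ico 0 k, measurableSet_Ico, by simpa using (by omega : 0 < k), by simp, fun x => ?_, ?_⟩
  · have : {l : ℤ | x - l ∈ Ico (0 : ℝ) k} = (Finset.Ioc (⌊x⌋ - k) ⌊x⌋ : Finset ℤ) := by
      ext l
      simp only [mem_Ico, mem_ofPred_eq, Finset.coe_Ioc, mem_Ioc, Int.le_floor, sub_nonneg,
        sub_lt_iff_lt_add, Int.floor_lt]
      push_cast
      rw [and_comm, add_comm]
    rw [this, encard_coe_eq_coe_finsetCard]; simp
  rintro Γ ⟨ι, b, T, hb⟩
  have ml : ∀ (s : Set ℝ) (l g : ℝ), MeasurableSet s → volume s ≠ ⊤ →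
      MemLp (atom s l g) 2 volume ∧ eLpNorm (atom s l g) 2 volume ≤ volume s ^ (1 / 2 : ℝ) := by
    intro s l g hs hv
    have m : MeasurableSet ((fun x => x - l) ⁻¹' s) := measurable_sub_const l hs
    have v : volume ((fun x => x - l) ⁻¹' s) = volume s := by
      simpa [sub_eq_add_neg] using measure_preimage_add_right volume (-l) s
    have le : eLpNorm (atom s l g) 2 volume ≤ volume s ^ (1 / 2 : ℝ) := by
      refine (eLpNorm_mono (g := ((fun x => x - l) ⁻¹' s).indicator fun _ => (1 : ℝ))
        fun x => ?_).trans ?_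
      · have : ‖exp (2 * Real.pi * I * (g * x))‖ = 1 := by
          rw [← norm_exp_ofReal_mul_I (2 * Real.pi * (g * x))]; congr 2; push_cast; ring
        by_cases h : x - l ∈ s <;> simp [atom, h, this]
      · rw [eLpNorm_indicator_const m (by simp) (by simp), v]; simp
    refine ⟨⟨Measurable.aestronglyMeasurable ?_, le.trans_lt ?_⟩, le⟩
    · exact Measurable.mul (by fun_prop)
        ((measurable_one.indicator hs).comp (measurable_sub_const l))
    · exact ENNReal.rpow_lt_top_of_nonneg (by norm_num) hv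
  obtain ⟨g, hg⟩ : Γ.Nonempty := by
    by_contra h
    rw [not_nonempty_iff_eq_empty] at h
    have e : IsEmpty ι := ⟨fun i => by
      have : T (b i) ∈ range fun i => T (b i) := ⟨i, rfl⟩
      simp [hb, h] at this⟩
    have z : ∀ f : Lp ℂ 2 (volume : Measure ℝ), f = 0 := fun f =>
      b.repr.injective (Subsingleton.elim _ _)
    have := z (indicatorConstLp 2 (measurableSet_Ico (a := (0 : ℝ)) (b := 1)) (by simp) (1 : ℂ))
    have := congrArg norm this
    rw [norm_indicatorConstLp (by simp) (by simp)] at this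
    simp at this
  let G : ℕ → Lp ℂ 2 (volume : Measure ℝ) := fun n =>
    (ml (Ico 0 k) n g measurableSet_Ico (by simp)).1.toLp
  let h : ℕ → Lp ℂ 2 (volume : Measure ℝ) := fun n =>
    (ml (Ico 0 1) n g measurableSet_Ico (by simp)).1.toLp
  have cG : ∀ n, G n =ᵐ[volume] atom (Ico 0 k) n g := fun n => MemLp.coeFn_toLp _
  have ch : ∀ n, h n =ᵐ[volume] atom (Ico 0 1) n g := fun n => MemLp.coeFn_toLp _
  have nh : ∀ n, ‖h n‖ ≤ 1 := fun n => by
    rw [Lp.norm_toLp]
    refine ENNReal.toReal_le_of_le_ofReal zero_le_one ?_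
    simpa using (ml (Ico 0 1) n g measurableSet_Ico (by simp)).2
  have step : ∀ n, G n - G (n + 1) = h n - h (n + k) := fun n => by
    refine Lp.ext ?_
    filter_upwards [Lp.coeFn_sub (G n) (G (n + 1)), Lp.coeFn_sub (h n) (h (n + k)), cG n,
      cG (n + 1), ch n, ch (n + k)] with x a1 a2 a3 a4 a5 a6
    rw [a1, a2, Pi.sub_apply, Pi.sub_apply, a3, a4, a5, a6]
    simp only [atom, indicator, mem_Ico, Pi.one_apply]
    push_cast
    split_ifs <;> first | rfl | (exfalso; grind) | simp
  have inj : Function.Injective G := by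
    refine Function.Injective.of_lt_imp_ne fun n m hnm e => ?_
    have hm : (n : ℝ) + 1 ≤ m := by exact_mod_cast hnm
    have : ∀ᵐ x : ℝ, x ∉ Ico (n : ℝ) (n + 1) := by
      filter_upwards [cG n, cG m] with x a1 a2 hx
      rw [e] at a1
      replace a1 := a1.symm.trans a2
      have b1 : x - n ∈ Ico (0 : ℝ) k := ⟨by linarith [hx.1], by linarith [hx.2]⟩
      have b2 : x - m ∉ Ico (0 : ℝ) k := fun h => by linarith [h.1, hx.2]
      rw [atom, atom, indicator_of_notMem b2, indicator_of_mem b1] at a1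
      simp at a1
    simpa using measure_eq_zero_iff_ae_notMem.mpr this
  have ex : ∀ n, ∃ i, T (b i) = G n := fun n => by
    have : G n ∈ range fun i => T (b i) := by rw [hb]; exact ⟨n, g, hg, by simpa using cG n⟩
    exact this
  choose i hi using ex
  have on := orthonormal_iff_ite.mp (b.orthonormal.comp i fun n m e => inj (by
    rw [← hi, ← hi, e]))
  obtain ⟨N, hN⟩ := exists_nat_gt ((‖T.symm.toContinuousLinearMap‖ * 2) ^ 2)
  let v := ∑ j ∈ Finset.range N, (b (i (j * k)) - b (i (j * k + 1)))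
  have Tv : T v = h 0 - h (N * k) := by
    simp only [v, map_sum, map_sub, hi, step]
    simpa [add_mul] using Finset.sum_range_sub' (fun j => h (j * k)) N
  have n1 : ‖v‖ ≤ ‖T.symm.toContinuousLinearMap‖ * 2 := by
    have := T.symm.toContinuousLinearMap.le_opNorm_of_le (x := T v)
      (c := 2) (by rw [Tv]; linarith [norm_sub_le (h 0) (h (N * k)), nh 0, nh (N * k)])
    simpa using this
  have n2 : inner ℂ v v = 2 * N := by
    have ne : ∀ j l : ℕ, j * k ≠ l * k + 1 := fun j l e => by
      have := congrArg (· % k) e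
      simp [Nat.mod_eq_of_lt hk] at this
    have k0 : k ≠ 0 := by omega
    simp only [Function.comp] at on
    simp only [v, sum_inner, inner_sum, inner_sub_left, inner_sub_right, on]
    simp [ne, (ne _ _).symm, k0, Finset.sum_add_distrib]
    rw [Finset.filter_true_of_mem fun x hx => Finset.mem_range.mp hx]
    simp [two_mul]
  rw [inner_self_eq_norm_sq_to_K] at n2
  have n3 : ‖v‖ ^ 2 = 2 * N := ofReal_injective (by push_cast; exact n2)
  nlinarith [pow_le_pow_left₀ (norm_nonneg _) n1 2, norm_nonneg v]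

end Pool.Agent.Results.MP_9d6809_an.NoRiesz
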